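import Mathlib

set_option autoImplicit false

namespace Pool.Agent.Results.MP_ce47b3_al.RetractNotFree

universe u

noncomputable section

/-- The multiset of variables occurring in a nonassociative monomial. -/
def vars : FreeMagma ℕ → Multiset ℕ
  | FreeMagma.of n => {n}
  | FreeMagma.mul a b => vars a + vars b

/-- `f` is a multilinear identity: for some `n`, each monomial which occurs in `f` (with nonzero
coefficient) contains each of the variables `x_0, ..., x_{n-1}` exactly once and no other
variable. -/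
def IsMultilinear {k : Type u} [CommRing k] (f : FreeNonUnitalNonAssocAlgebra k ℕ) : Prop :=
  ∃ n : ℕ, ∀ m : FreeMagma ℕ, f.coeff m ≠ 0 → vars m = Multiset.range n

/-- The linear `k`-algebra `A` belongs to the variety defined by the set `S` of identities:
each `f ∈ S` vanishes under each substitution of elements of `A` for the variables. -/
def InVariety {k : Type u} [CommRing k] (S : Set (FreeNonUnitalNonAssocAlgebra k ℕ))
    (A : Type u) [NonUnitalNonAssocRing A] [Module k A] [IsScalarTower k A A]
    [SMulCommClass k A A] : Prop :=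
  ∀ f ∈ S, ∀ v : ℕ → A, FreeNonUnitalNonAssocAlgebra.lift k v f = 0

/-- `F` together with `ι : X → F` is the free object on the set `X` in the variety defined by
`S`. -/
def IsFreeOn {k : Type u} [CommRing k] (S : Set (FreeNonUnitalNonAssocAlgebra k ℕ))
    {X : Type u} {F : Type u} [NonUnitalNonAssocRing F] [Module k F] [IsScalarTower k F F]
    [SMulCommClass k F F] (ι : X → F) : Prop :=
  InVariety S F ∧
    ∀ (A : Type u) [NonUnitalNonAssocRing A] [Module k A] [IsScalarTower k A A]
      [SMulCommClass k A A], InVariety S A →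
      ∀ g : X → A, ∃! φ : F →ₙₐ[k] A, ∀ x, φ (ι x) = g x

/-- `F` is `V`-free, where `V` is the variety defined by `S`: it is free on some set. -/
def IsVFree {k : Type u} [CommRing k] (S : Set (FreeNonUnitalNonAssocAlgebra k ℕ))
    (F : Type u) [NonUnitalNonAssocRing F] [Module k F] [IsScalarTower k F F]
    [SMulCommClass k F F] : Prop :=
  ∃ (X : Type u) (ι : X → F), IsFreeOn S ι

/-- The subalgebra `B` of `A` is a retract of `A`: there is an endomorphism `π` of `A` with
image `B` which is the identity on `B`. -/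
def IsRetract {k : Type u} [CommRing k] {A : Type u} [NonUnitalNonAssocRing A] [Module k A]
    [IsScalarTower k A A] [SMulCommClass k A A] (B : NonUnitalSubalgebra k A) : Prop :=
  ∃ π : A →ₙₐ[k] A, (∀ a : A, π a ∈ B) ∧ ∀ b ∈ B, π b = b

/-! ### Relatively free algebras exist -/

section RelFree

variable {k : Type u} [CommRing k] (S : Set (FreeNonUnitalNonAssocAlgebra k ℕ)) (X : Type u)

/-- The elements of the free algebra on `X` which vanish in all algebras of the variety. -/
def verbal : Submodule k (FreeNonUnitalNonAssocAlgebra k X) where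
  carrier := {a | ∀ (A : Type u) [NonUnitalNonAssocRing A] [Module k A] [IsScalarTower k A A]
      [SMulCommClass k A A], InVariety S A → ∀ g : X → A,
      FreeNonUnitalNonAssocAlgebra.lift k g a = 0}
  add_mem' := by
    intro a b ha hb A _ _ _ _ hA g
    rw [map_add, ha A hA g, hb A hA g, add_zero]
  zero_mem' := by
    intro A _ _ _ _ hA g
    exact map_zero _
  smul_mem' := by
    intro c a ha A _ _ _ _ hA g
    rw [map_smul, ha A hA g, smul_zero]

variable {S X}

lemma verbal_mul_left {a b : FreeNonUnitalNonAssocAlgebra k X} (hb : b ∈ verbal S X) :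
    a * b ∈ verbal S X := by
  intro A _ _ _ _ hA g
  rw [map_mul, hb A hA g, mul_zero]

lemma verbal_mul_right {a b : FreeNonUnitalNonAssocAlgebra k X} (ha : a ∈ verbal S X) :
    a * b ∈ verbal S X := by
  intro A _ _ _ _ hA g
  rw [map_mul, ha A hA g, zero_mul]

variable (S X)

/-- The relatively free algebra, as a module. -/
def RelFree : Type u := FreeNonUnitalNonAssocAlgebra k X ⧸ verbal S X

instance : AddCommGroup (RelFree S X) :=
  inferInstanceAs (AddCommGroup (FreeNonUnitalNonAssocAlgebra k X ⧸ verbal S X))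

instance : Module k (RelFree S X) :=
  inferInstanceAs (Module k (FreeNonUnitalNonAssocAlgebra k X ⧸ verbal S X))

/-- The quotient map. -/
def mkRF : FreeNonUnitalNonAssocAlgebra k X →ₗ[k] RelFree S X := (verbal S X).mkQ

lemma mkRF_surj : Function.Surjective (mkRF S X) := Submodule.mkQ_surjective _

lemma mkRF_eq_zero {a : FreeNonUnitalNonAssocAlgebra k X} :
    mkRF S X a = 0 ↔ a ∈ verbal S X := Submodule.Quotient.mk_eq_zero _

lemma mkRF_eq {a b : FreeNonUnitalNonAssocAlgebra k X} :
    mkRF S X a = mkRF S X b ↔ a - b ∈ verbal S X := Submodule.Quotient.eq _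

/-- The multiplication of the relatively free algebra. -/
def mulRF (p q : RelFree S X) : RelFree S X :=
  Quotient.map₂ (sa := (verbal S X).quotientRel) (sb := (verbal S X).quotientRel)
    (sc := (verbal S X).quotientRel) (fun a b => a * b) (by
      intro a a' ha b b' hb
      have ha' : a - a' ∈ verbal S X := (Submodule.quotientRel_def _).1 ha
      have hb' : b - b' ∈ verbal S X := (Submodule.quotientRel_def _).1 hb
      refine (Submodule.quotientRel_def _).2 ?_
      have : a * b - a' * b' = (a - a') * b + a' * (b - b') := by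
        rw [sub_mul, mul_sub]; abel
      rw [this]
      exact Submodule.add_mem _ (verbal_mul_right ha') (verbal_mul_left hb')) p q

instance : Mul (RelFree S X) := ⟨mulRF S X⟩

lemma mkRF_mul (a b : FreeNonUnitalNonAssocAlgebra k X) :
    mkRF S X (a * b) = mkRF S X a * mkRF S X b := rfl

instance : NonUnitalNonAssocRing (RelFree S X) where
  left_distrib := by
    intro a b c
    obtain ⟨a, rfl⟩ := mkRF_surj S X a
    obtain ⟨b, rfl⟩ := mkRF_surj S X b
    obtain ⟨c, rfl⟩ := mkRF_surj S X c
    rw [← map_add, ← mkRF_mul, ← mkRF_mul, ← mkRF_mul, ← map_add, mul_add]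
  right_distrib := by
    intro a b c
    obtain ⟨a, rfl⟩ := mkRF_surj S X a
    obtain ⟨b, rfl⟩ := mkRF_surj S X b
    obtain ⟨c, rfl⟩ := mkRF_surj S X c
    rw [← map_add, ← mkRF_mul, ← mkRF_mul, ← mkRF_mul, ← map_add, add_mul]
  zero_mul := by
    intro a
    obtain ⟨a, rfl⟩ := mkRF_surj S X a
    rw [← map_zero (mkRF S X), ← mkRF_mul, zero_mul]
  mul_zero := by
    intro a
    obtain ⟨a, rfl⟩ := mkRF_surj S X a
    rw [← map_zero (mkRF S X), ← mkRF_mul, mul_zero]

instance : IsScalarTower k (RelFree S X) (RelFree S X) where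
  smul_assoc := by
    intro c a b
    obtain ⟨a, rfl⟩ := mkRF_surj S X a
    obtain ⟨b, rfl⟩ := mkRF_surj S X b
    rw [smul_eq_mul, smul_eq_mul, ← map_smul, ← mkRF_mul, ← mkRF_mul, ← map_smul, smul_mul_assoc]

instance : SMulCommClass k (RelFree S X) (RelFree S X) where
  smul_comm := by
    intro c a b
    obtain ⟨a, rfl⟩ := mkRF_surj S X a
    obtain ⟨b, rfl⟩ := mkRF_surj S X b
    rw [smul_eq_mul, smul_eq_mul, ← map_smul, ← mkRF_mul, ← mkRF_mul, ← map_smul, mul_smul_comm]

/-- The quotient map as a homomorphism. -/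
def mkHom : FreeNonUnitalNonAssocAlgebra k X →ₙₐ[k] RelFree S X where
  toFun := mkRF S X
  map_smul' := by intro c a; exact map_smul _ _ _
  map_zero' := map_zero _
  map_add' := map_add _
  map_mul' := mkRF_mul S X

lemma relFree_inVariety : InVariety S (RelFree S X) := by
  intro f hf v
  choose v' hv' using fun n => mkRF_surj S X (v n)
  have h1 : FreeNonUnitalNonAssocAlgebra.lift k v =
      (mkHom S X).comp (FreeNonUnitalNonAssocAlgebra.lift k v') := by
    refine FreeNonUnitalNonAssocAlgebra.hom_ext k ?_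
    intro n
    simp only [FreeNonUnitalNonAssocAlgebra.lift_of_apply, NonUnitalAlgHom.comp_apply]
    exact (hv' n).symm
  rw [h1]
  change mkRF S X _ = 0
  rw [mkRF_eq_zero]
  intro A _ _ _ _ hA g
  have h2 : FreeNonUnitalNonAssocAlgebra.lift k
      (fun n => FreeNonUnitalNonAssocAlgebra.lift k g (v' n)) =
      (FreeNonUnitalNonAssocAlgebra.lift k g).comp (FreeNonUnitalNonAssocAlgebra.lift k v') := by
    refine FreeNonUnitalNonAssocAlgebra.hom_ext k ?_
    intro n
    simp only [FreeNonUnitalNonAssocAlgebra.lift_of_apply, NonUnitalAlgHom.comp_apply]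
  have h3 := hA f hf (fun n => FreeNonUnitalNonAssocAlgebra.lift k g (v' n))
  rw [h2] at h3
  exact h3

/-- The generators. -/
def gen (x : X) : RelFree S X := mkRF S X (FreeNonUnitalNonAssocAlgebra.of k x)

/-- The homomorphism from the relatively free algebra given by a map on generators. -/
def liftRF (A : Type u) [NonUnitalNonAssocRing A] [Module k A] [IsScalarTower k A A]
    [SMulCommClass k A A] (hA : InVariety S A) (g : X → A) : RelFree S X →ₙₐ[k] A where
  toFun := (verbal S X).liftQ
    (FreeNonUnitalNonAssocAlgebra.lift k g : FreeNonUnitalNonAssocAlgebra k X →ₗ[k] A) (by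
      intro a ha
      exact ha A hA g)
  map_smul' := by intro c a; exact map_smul _ _ _
  map_zero' := map_zero _
  map_add' := map_add _
  map_mul' := by
    intro a b
    obtain ⟨a, rfl⟩ := mkRF_surj S X a
    obtain ⟨b, rfl⟩ := mkRF_surj S X b
    exact map_mul (FreeNonUnitalNonAssocAlgebra.lift k g) a b

lemma liftRF_mk (A : Type u) [NonUnitalNonAssocRing A] [Module k A] [IsScalarTower k A A]
    [SMulCommClass k A A] (hA : InVariety S A) (g : X → A)
    (a : FreeNonUnitalNonAssocAlgebra k X) :
    liftRF S X A hA g (mkRF S X a) = FreeNonUnitalNonAssocAlgebra.lift k g a := rfl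

lemma relFree_isFreeOn : IsFreeOn S (gen S X) := by
  refine ⟨relFree_inVariety S X, ?_⟩
  intro A _ _ _ _ hA g
  refine ⟨liftRF S X A hA g, ?_, ?_⟩
  · intro x
    rw [gen, liftRF_mk, FreeNonUnitalNonAssocAlgebra.lift_of_apply]
  · intro φ hφ
    have h : φ.comp (mkHom S X) = FreeNonUnitalNonAssocAlgebra.lift k g := by
      refine FreeNonUnitalNonAssocAlgebra.hom_ext k ?_
      intro x
      rw [FreeNonUnitalNonAssocAlgebra.lift_of_apply]
      exact hφ x
    ext a
    obtain ⟨a, rfl⟩ := mkRF_surj S X a
    rw [liftRF_mk, ← h]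
    rfl

end RelFree

/-! ### The variety -/

section Variety

variable (k : Type u) [CommRing k]

/-- The variables. -/
def xv (n : ℕ) : FreeNonUnitalNonAssocAlgebra k ℕ := FreeNonUnitalNonAssocAlgebra.of k n

/-- The three identities `(ab)(cd) = 0`, `a((bc)d) = 0`, `(a(bc))d = 0`. -/
def idents : Set (FreeNonUnitalNonAssocAlgebra k ℕ) :=
  {(xv k 0 * xv k 1) * (xv k 2 * xv k 3), xv k 0 * ((xv k 1 * xv k 2) * xv k 3),
    (xv k 0 * (xv k 1 * xv k 2)) * xv k 3}

lemma xv_eq (n : ℕ) : xv k n = MonoidAlgebra.single (FreeMagma.of n) 1 := rfl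

lemma isMultilinear_single (m : FreeMagma ℕ) (n : ℕ) (h : vars m = Multiset.range n) (c : k) :
    IsMultilinear (MonoidAlgebra.single m c : FreeNonUnitalNonAssocAlgebra k ℕ) := by
  refine ⟨n, ?_⟩
  intro m' hm'
  have : m' = m := by
    by_contra hne
    apply hm'
    simp [MonoidAlgebra.coeff_single, Ne.symm hne]
  rw [this, h]

lemma vars_mul (a b : FreeMagma ℕ) : vars (a * b) = vars a + vars b := rfl

lemma vars_of (n : ℕ) : vars (FreeMagma.of n) = {n} := rfl

lemma idents_multilinear : ∀ f ∈ idents k, IsMultilinear f := by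
  intro f hf
  rcases hf with rfl | rfl | rfl
  · simp only [xv_eq, MonoidAlgebra.single_mul_single]
    refine isMultilinear_single k _ 4 ?_ _
    decide
  · simp only [xv_eq, MonoidAlgebra.single_mul_single]
    refine isMultilinear_single k _ 4 ?_ _
    decide
  · simp only [xv_eq, MonoidAlgebra.single_mul_single]
    refine isMultilinear_single k _ 4 ?_ _
    decide

variable {k}

lemma inVariety_iff (A : Type u) [NonUnitalNonAssocRing A] [Module k A] [IsScalarTower k A A]
    [SMulCommClass k A A] : InVariety (idents k) A ↔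
      (∀ a b c d : A, (a * b) * (c * d) = 0) ∧ (∀ a b c d : A, a * ((b * c) * d) = 0) ∧
      (∀ a b c d : A, (a * (b * c)) * d = 0) := by
  constructor
  · intro h
    have key : ∀ a b c d : A, ∀ f ∈ idents k,
        FreeNonUnitalNonAssocAlgebra.lift k
          (fun n => if n = 0 then a else if n = 1 then b else if n = 2 then c else d) f = 0 := by
      intro a b c d f hf
      exact h f hf _
    refine ⟨?_, ?_, ?_⟩
    · intro a b c d
      have := key a b c d _ (Or.inl rfl)
      simpa [xv, map_mul] using this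
    · intro a b c d
      have := key a b c d _ (Or.inr (Or.inl rfl))
      simpa [xv, map_mul] using this
    · intro a b c d
      have := key a b c d _ (Or.inr (Or.inr rfl))
      simpa [xv, map_mul] using this
  · rintro ⟨h1, h2, h3⟩ f hf v
    rcases hf with rfl | rfl | rfl
    · simp only [xv, map_mul]
      exact h1 _ _ _ _
    · simp only [xv, map_mul]
      exact h2 _ _ _ _
    · simp only [xv, map_mul]
      exact h3 _ _ _ _

end Variety

/-! ### Two test algebras in the variety -/

section TestAlgebras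

variable (k : Type u) [CommRing k]

/-- `k` with zero multiplication. -/
def ZeroAlg : Type u := k

instance : AddCommGroup (ZeroAlg k) := inferInstanceAs (AddCommGroup k)
instance : Module k (ZeroAlg k) := inferInstanceAs (Module k k)
instance : Mul (ZeroAlg k) := ⟨fun _ _ => 0⟩

lemma zeroAlg_mul (a b : ZeroAlg k) : a * b = 0 := rfl

/-- The identity map, as a linear equivalence. -/
def toK : ZeroAlg k ≃ₗ[k] k := LinearEquiv.refl k k

instance : NonUnitalNonAssocRing (ZeroAlg k) where
  left_distrib := by intro a b c; simp [zeroAlg_mul]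
  right_distrib := by intro a b c; simp [zeroAlg_mul]
  zero_mul := by intro a; rfl
  mul_zero := by intro a; rfl

instance : IsScalarTower k (ZeroAlg k) (ZeroAlg k) where
  smul_assoc := by intro c a b; simp [zeroAlg_mul]

instance : SMulCommClass k (ZeroAlg k) (ZeroAlg k) where
  smul_comm := by intro c a b; simp [zeroAlg_mul]

lemma zeroAlg_inVariety : InVariety (idents k) (ZeroAlg k) := by
  rw [inVariety_iff]
  exact ⟨fun _ _ _ _ => rfl, fun _ _ _ _ => rfl, fun _ _ _ _ => rfl⟩

open Polynomial

variable (K : Type u) [Field K] [Algebra k K]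

/-- The algebra of triples `(l, f, g)` with
`(l, f, g) (l', f', g') = (0, X f l', X g' l)`. -/
def TA (K : Type u) [Field K] : Type u := K × K[X] × K[X]

instance : AddCommGroup (TA K) := inferInstanceAs (AddCommGroup (K × K[X] × K[X]))
instance : Module k (TA K) := inferInstanceAs (Module k (K × K[X] × K[X]))

/-- constructor -/
def TA.mk {K : Type u} [Field K] (l : K) (f g : K[X]) : TA K := (l, f, g)

/-- projection -/
def TA.l {K : Type u} [Field K] (p : TA K) : K := p.1
/-- projection -/
def TA.f {K : Type u} [Field K] (p : TA K) : K[X] := p.2.1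
/-- projection -/
def TA.g {K : Type u} [Field K] (p : TA K) : K[X] := p.2.2

instance : Mul (TA K) := ⟨fun p q => TA.mk 0 (X * p.f * C q.l) (X * q.g * C p.l)⟩

@[simp] lemma TA.l_mk (l : K) (f g : K[X]) : (TA.mk l f g).l = l := rfl
@[simp] lemma TA.f_mk (l : K) (f g : K[X]) : (TA.mk l f g).f = f := rfl
@[simp] lemma TA.g_mk (l : K) (f g : K[X]) : (TA.mk l f g).g = g := rfl
@[simp] lemma TA.l_add (p q : TA K) : (p + q).l = p.l + q.l := rfl
@[simp] lemma TA.f_add (p q : TA K) : (p + q).f = p.f + q.f := rfl
@[simp] lemma TA.g_add (p q : TA K) : (p + q).g = p.g + q.g := rfl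
@[simp] lemma TA.l_sub (p q : TA K) : (p - q).l = p.l - q.l := rfl
@[simp] lemma TA.f_sub (p q : TA K) : (p - q).f = p.f - q.f := rfl
@[simp] lemma TA.g_sub (p q : TA K) : (p - q).g = p.g - q.g := rfl
@[simp] lemma TA.l_zero : (0 : TA K).l = 0 := rfl
@[simp] lemma TA.f_zero : (0 : TA K).f = 0 := rfl
@[simp] lemma TA.g_zero : (0 : TA K).g = 0 := rfl
@[simp] lemma TA.l_smul (c : k) (p : TA K) : (c • p).l = c • p.l := rfl
@[simp] lemma TA.f_smul (c : k) (p : TA K) : (c • p).f = c • p.f := rfl
@[simp] lemma TA.g_smul (c : k) (p : TA K) : (c • p).g = c • p.g := rfl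
@[simp] lemma TA.l_mul (p q : TA K) : (p * q).l = 0 := rfl
@[simp] lemma TA.f_mul (p q : TA K) : (p * q).f = X * p.f * C q.l := rfl
@[simp] lemma TA.g_mul (p q : TA K) : (p * q).g = X * q.g * C p.l := rfl

lemma TA.ext {p q : TA K} (h1 : p.l = q.l) (h2 : p.f = q.f) (h3 : p.g = q.g) : p = q :=
  Prod.ext h1 (Prod.ext h2 h3)

instance : NonUnitalNonAssocRing (TA K) where
  left_distrib := by intro a b c; apply TA.ext <;> simp <;> ring
  right_distrib := by intro a b c; apply TA.ext <;> simp <;> ring
  zero_mul := by intro a; apply TA.ext <;> simp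
  mul_zero := by intro a; apply TA.ext <;> simp

instance : IsScalarTower k (TA K) (TA K) where
  smul_assoc := by
    intro c a b
    apply TA.ext
    · simp
    · simp only [smul_eq_mul, TA.f_mul, TA.f_smul, mul_smul_comm, smul_mul_assoc]
    · simp only [smul_eq_mul, TA.g_mul, TA.g_smul, TA.l_smul]
      rw [← Polynomial.smul_C, mul_smul_comm]

instance : SMulCommClass k (TA K) (TA K) where
  smul_comm := by
    intro c a b
    apply TA.ext
    · simp
    · simp only [smul_eq_mul, TA.f_mul, TA.f_smul, TA.l_smul]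
      rw [← Polynomial.smul_C, mul_smul_comm]
    · simp only [smul_eq_mul, TA.g_mul, TA.g_smul, mul_smul_comm, smul_mul_assoc]

lemma ta_inVariety : InVariety (idents k) (TA K) := by
  rw [inVariety_iff]
  refine ⟨?_, ?_, ?_⟩
  · intro a b c d; apply TA.ext <;> simp
  · intro a b c d; apply TA.ext <;> simp
  · intro a b c d; apply TA.ext <;> simp

/-- The subalgebra of `TA K` which contains the subalgebra generated by `b`. -/
def W (b : TA K) : NonUnitalSubalgebra k (TA K) where
  carrier := {p | ∃ P Q : K[X], P.coeff 0 = Q.coeff 0 ∧ P.coeff 1 = Q.coeff 1 ∧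
    p.l = P.coeff 0 * b.l ∧ p.f = P * b.f ∧ p.g = Q * b.g}
  add_mem' := by
    rintro p q ⟨P, Q, h0, h1, h2, h3, h4⟩ ⟨P', Q', h0', h1', h2', h3', h4'⟩
    refine ⟨P + P', Q + Q', ?_, ?_, ?_, ?_, ?_⟩
    · simp [h0, h0']
    · simp [h1, h1']
    · simp [h2, h2', add_mul]
    · simp [h3, h3', add_mul]
    · simp [h4, h4', add_mul]
  zero_mem' := ⟨0, 0, by simp, by simp, by simp, by simp, by simp⟩
  smul_mem' := by
    rintro c p ⟨P, Q, h0, h1, h2, h3, h4⟩
    refine ⟨c • P, c • Q, ?_, ?_, ?_, ?_, ?_⟩
    · simp [h0]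
    · simp [h1]
    · simp [h2]
    · simp [h3]
    · simp [h4]
  mul_mem' := by
    rintro p q ⟨P, Q, h0, h1, h2, h3, h4⟩ ⟨P', Q', h0', h1', h2', h3', h4'⟩
    refine ⟨X * P * C q.l, X * Q' * C p.l, ?_, ?_, ?_, ?_, ?_⟩
    · simp [mul_assoc]
    · rw [mul_assoc, mul_assoc, Polynomial.coeff_X_mul, Polynomial.coeff_X_mul,
        Polynomial.coeff_mul_C, Polynomial.coeff_mul_C, h2, h2', h0']
      ring
    · simp [mul_assoc]
    · rw [TA.f_mul, h3]; ring
    · rw [TA.g_mul, h4']; ring

variable {K}

lemma W_contra (b : TA K) (h1 : TA.mk 1 1 (1 - X) ∈ W k K b) (h2 : TA.mk 0 X X ∈ W k K b) :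
    False := by
  obtain ⟨P, Q, -, h11, -, hf, hg⟩ := h1
  obtain ⟨P', Q', -, -, -, -, hg'⟩ := h2
  simp only [TA.f_mk, TA.g_mk] at hf hg hg'
  have hfu : IsUnit b.f := IsUnit.of_mul_eq_one P (by rw [mul_comm]; exact hf.symm)
  have hgu : IsUnit b.g := by
    refine IsUnit.of_mul_eq_one (Q + Q') ?_
    rw [mul_comm, add_mul, ← hg, ← hg']
    ring
  rw [Polynomial.isUnit_iff] at hfu hgu
  obtain ⟨c, hc, hfc⟩ := hfu
  obtain ⟨d, hd, hgd⟩ := hgu
  rw [← hfc] at hf
  rw [← hgd] at hg
  have e1 : (0 : K) = P.coeff 1 * c := by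
    have := congrArg (fun p => Polynomial.coeff p 1) hf
    simpa [Polynomial.coeff_one] using this
  have e2 : (-1 : K) = Q.coeff 1 * d := by
    have := congrArg (fun p => Polynomial.coeff p 1) hg
    simpa [Polynomial.coeff_one] using this
  have e3 : P.coeff 1 = 0 := by
    rcases mul_eq_zero.1 e1.symm with h | h
    · exact h
    · exact absurd h hc.ne_zero
  rw [← h11, e3, zero_mul] at e2
  exact one_ne_zero (neg_eq_zero.1 e2)

end TestAlgebras

/-! ### The idempotent endomorphism -/

section Main

variable (k : Type u) [CommRing k]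

/-- The first element of the index set. -/
abbrev i0 : ULift.{u} (Fin 2) := ⟨0⟩
/-- The second element of the index set. -/
abbrev i1 : ULift.{u} (Fin 2) := ⟨1⟩

/-- The free algebra of the variety on two generators. -/
abbrev F2 : Type u := RelFree (idents k) (ULift.{u} (Fin 2))

/-- first generator -/
def y : F2 k := gen (idents k) _ i0
/-- second generator -/
def z : F2 k := gen (idents k) _ i1

variable {k}

/-- values on the generators, first -/
def wordY {A : Type u} [NonUnitalNonAssocRing A] (a b : A) : A :=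
  a + a * b - a * (a * a) - a * (a * b)
/-- values on the generators, second -/
def wordZ {A : Type u} [NonUnitalNonAssocRing A] (a b : A) : A :=
  a * a + a * (a * a) + a * (a * b) + (a * b) * a

lemma map_wordY {A B : Type u} [NonUnitalNonAssocRing A] [Module k A] [NonUnitalNonAssocRing B]
    [Module k B] (φ : A →ₙₐ[k] B) (a b : A) : φ (wordY a b) = wordY (φ a) (φ b) := by
  simp only [wordY, map_add, map_sub, map_mul]

lemma map_wordZ {A B : Type u} [NonUnitalNonAssocRing A] [Module k A] [NonUnitalNonAssocRing B]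
    [Module k B] (φ : A →ₙₐ[k] B) (a b : A) : φ (wordZ a b) = wordZ (φ a) (φ b) := by
  simp only [wordZ, map_add, map_mul]

lemma wordY_idem {A : Type u} [NonUnitalNonAssocRing A] [Module k A] [IsScalarTower k A A]
    [SMulCommClass k A A] (hA : InVariety (idents k) A) (a b : A) :
    wordY (wordY a b) (wordZ a b) = wordY a b := by
  rw [inVariety_iff] at hA
  obtain ⟨h1, h2, h3⟩ := hA
  simp only [wordY, wordZ, mul_add, add_mul, mul_sub, sub_mul, h1, h2, h3, add_zero, sub_zero]
  abel

lemma wordZ_idem {A : Type u} [NonUnitalNonAssocRing A] [Module k A] [IsScalarTower k A A]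
    [SMulCommClass k A A] (hA : InVariety (idents k) A) (a b : A) :
    wordZ (wordY a b) (wordZ a b) = wordZ a b := by
  rw [inVariety_iff] at hA
  obtain ⟨h1, h2, h3⟩ := hA
  simp only [wordY, wordZ, mul_add, add_mul, mul_sub, sub_mul, h1, h2, h3, add_zero, sub_zero]
  abel

variable (k)

/-- homomorphisms out of the free algebra on two generators -/
def hom2 (A : Type u) [NonUnitalNonAssocRing A] [Module k A] [IsScalarTower k A A]
    [SMulCommClass k A A] (hA : InVariety (idents k) A) (a b : A) : F2 k →ₙₐ[k] A :=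
  liftRF (idents k) _ A hA (fun i => if i = i0 then a else b)

lemma hom2_y (A : Type u) [NonUnitalNonAssocRing A] [Module k A] [IsScalarTower k A A]
    [SMulCommClass k A A] (hA : InVariety (idents k) A) (a b : A) :
    hom2 k A hA a b (y k) = a := by
  rw [hom2, y, gen, liftRF_mk, FreeNonUnitalNonAssocAlgebra.lift_of_apply, if_pos rfl]

lemma hom2_z (A : Type u) [NonUnitalNonAssocRing A] [Module k A] [IsScalarTower k A A]
    [SMulCommClass k A A] (hA : InVariety (idents k) A) (a b : A) :
    hom2 k A hA a b (z k) = b := by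
  rw [hom2, z, gen, liftRF_mk, FreeNonUnitalNonAssocAlgebra.lift_of_apply, if_neg]
  intro h
  exact absurd (congrArg ULift.down h) (by decide)

lemma hom_ext2 {A : Type u} [NonUnitalNonAssocRing A] [Module k A] [IsScalarTower k A A]
    [SMulCommClass k A A] (hA : InVariety (idents k) A) {φ ψ : F2 k →ₙₐ[k] A}
    (h0 : φ (y k) = ψ (y k)) (h1 : φ (z k) = ψ (z k)) : φ = ψ := by
  obtain ⟨θ, -, hθ⟩ := (relFree_isFreeOn (idents k) (ULift.{u} (Fin 2))).2 A hA
    (fun i => φ (gen (idents k) _ i))
  rw [hθ φ (fun _ => rfl), hθ ψ ?_]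
  rintro ⟨i⟩
  fin_cases i
  · exact h0.symm
  · exact h1.symm

/-- The idempotent endomorphism. -/
def piF : F2 k →ₙₐ[k] F2 k :=
  hom2 k (F2 k) (relFree_inVariety _ _) (wordY (y k) (z k)) (wordZ (y k) (z k))

lemma piF_y : piF k (y k) = wordY (y k) (z k) := hom2_y _ _ _ _ _
lemma piF_z : piF k (z k) = wordZ (y k) (z k) := hom2_z _ _ _ _ _

lemma piF_idem (a : F2 k) : piF k (piF k a) = piF k a := by
  have h : (piF k).comp (piF k) = piF k := by
    apply hom_ext2 k (relFree_inVariety _ _)
    · rw [NonUnitalAlgHom.comp_apply, piF_y, map_wordY, piF_y, piF_z,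
        wordY_idem (relFree_inVariety _ _)]
    · rw [NonUnitalAlgHom.comp_apply, piF_z, map_wordZ, piF_y, piF_z,
        wordZ_idem (relFree_inVariety _ _)]
  exact DFunLike.congr_fun h a

/-- The retract. -/
def retr : NonUnitalSubalgebra k (F2 k) where
  carrier := {a | piF k a = a}
  add_mem' := by
    intro a b (ha : piF k a = a) (hb : piF k b = b)
    change piF k (a + b) = a + b
    rw [map_add, ha, hb]
  zero_mem' := map_zero _
  mul_mem' := by
    intro a b (ha : piF k a = a) (hb : piF k b = b)
    change piF k (a * b) = a * b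
    rw [map_mul, ha, hb]
  smul_mem' := by
    intro c a (ha : piF k a = a)
    change piF k (c • a) = c • a
    rw [map_smul, ha]

lemma retr_isRetract : IsRetract (retr k) :=
  ⟨piF k, fun a => piF_idem k a, fun _ hb => hb⟩

/-- the corestriction of the idempotent -/
def piB : F2 k →ₙₐ[k] retr k where
  toFun a := ⟨piF k a, piF_idem k a⟩
  map_smul' := by intro c a; apply Subtype.ext; exact map_smul _ _ _
  map_zero' := by apply Subtype.ext; exact map_zero _
  map_add' := by intro a b; apply Subtype.ext; exact map_add _ _ _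
  map_mul' := by intro a b; apply Subtype.ext; exact map_mul _ _ _

/-- the inclusion -/
def incl {A : Type u} [NonUnitalNonAssocRing A] [Module k A] (B : NonUnitalSubalgebra k A) :
    B →ₙₐ[k] A where
  toFun b := b
  map_smul' := by intro c a; rfl
  map_zero' := rfl
  map_add' := by intro a b; rfl
  map_mul' := by intro a b; rfl

lemma piB_incl (b : retr k) : piB k (b : F2 k) = b := Subtype.ext b.2

lemma piB_z : piB k (z k) = wordZ (piB k (y k)) (piB k (z k)) := by
  rw [← map_wordZ, ← piF_z]
  exact Subtype.ext (piF_idem k _).symm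

/-- The augmentation of the free algebra. -/
def aug : F2 k →ₙₐ[k] ZeroAlg k :=
  hom2 k (ZeroAlg k) (zeroAlg_inVariety k) ((toK k).symm 1) 0

lemma hom_zeroAlg (θ : retr k →ₙₐ[k] ZeroAlg k) (b : retr k) :
    θ b = (toK k (aug k (b : F2 k))) • θ (piB k (y k)) := by
  have h1 : θ (piB k (z k)) = 0 := by
    rw [piB_z, map_wordZ]
    simp only [wordZ, zeroAlg_mul, add_zero]
  -- the homomorphism `a ↦ aug a • t`
  let t : ZeroAlg k := θ (piB k (y k))
  let μ : F2 k →ₙₐ[k] ZeroAlg k :=
    { toFun := fun a => (toK k (aug k a)) • t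
      map_smul' := by
        intro c a
        rw [map_smul, map_smul, smul_eq_mul, mul_smul]
        rfl
      map_zero' := by
        rw [map_zero, map_zero, zero_smul]
      map_add' := by
        intro a b
        rw [map_add, map_add, add_smul]
      map_mul' := by
        intro a b
        rw [map_mul, zeroAlg_mul, zeroAlg_mul, map_zero, zero_smul] }
  have h2 : θ.comp (piB k) = μ := by
    apply hom_ext2 k (zeroAlg_inVariety k)
    · change t = (toK k (aug k (y k))) • t
      rw [aug, hom2_y, LinearEquiv.apply_symm_apply, one_smul]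
    · change θ (piB k (z k)) = (toK k (aug k (z k))) • t
      rw [h1, aug, hom2_z, map_zero, zero_smul]
  have h3 := DFunLike.congr_fun h2 (b : F2 k)
  rw [NonUnitalAlgHom.comp_apply, piB_incl] at h3
  exact h3

lemma subsingleton_basis [Nontrivial k] {Y : Type u} {ι : Y → retr k}
    (h : IsFreeOn (idents k) ι) : Subsingleton Y := by
  classical
  refine ⟨fun y1 y2 => ?_⟩
  by_contra hne
  obtain ⟨θ1, h1, -⟩ := h.2 (ZeroAlg k) (zeroAlg_inVariety k)
    (fun y => if y = y1 then (toK k).symm 1 else 0)
  obtain ⟨θ2, h2, -⟩ := h.2 (ZeroAlg k) (zeroAlg_inVariety k)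
    (fun y => if y = y2 then (toK k).symm 1 else 0)
  let c1 : k := toK k (aug k (ι y1 : F2 k))
  let c2 : k := toK k (aug k (ι y2 : F2 k))
  let t1 : k := toK k (θ1 (piB k (y k)))
  let t2 : k := toK k (θ2 (piB k (y k)))
  have e1 : (1 : k) = c1 * t1 := by
    have := congrArg (toK k) (hom_zeroAlg k θ1 (ι y1))
    rw [h1, if_pos rfl, LinearEquiv.apply_symm_apply, map_smul, smul_eq_mul] at this
    exact this
  have e2 : (0 : k) = c2 * t1 := by
    have := congrArg (toK k) (hom_zeroAlg k θ1 (ι y2))
    rw [h1, if_neg (Ne.symm hne), map_zero, map_smul, smul_eq_mul] at this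
    exact this
  have e3 : (1 : k) = c2 * t2 := by
    have := congrArg (toK k) (hom_zeroAlg k θ2 (ι y2))
    rw [h2, if_pos rfl, LinearEquiv.apply_symm_apply, map_smul, smul_eq_mul] at this
    exact this
  have : (1 : k) = 0 := by
    calc (1 : k) = (c1 * t1) * (c2 * t2) := by rw [← e1, ← e3, one_mul]
      _ = (c2 * t1) * (c1 * t2) := by ring
      _ = 0 := by rw [← e2, zero_mul]
  exact one_ne_zero this

lemma subalgebra_inVariety {A : Type u} [NonUnitalNonAssocRing A] [Module k A]
    [IsScalarTower k A A] [SMulCommClass k A A] (hA : InVariety (idents k) A)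
    (B : NonUnitalSubalgebra k A) : InVariety (idents k) B := by
  rw [inVariety_iff] at *
  obtain ⟨h1, h2, h3⟩ := hA
  refine ⟨fun a b c d => Subtype.ext ?_, fun a b c d => Subtype.ext ?_,
    fun a b c d => Subtype.ext ?_⟩
  · exact h1 a b c d
  · exact h2 a b c d
  · exact h3 a b c d

open Polynomial

lemma retr_not_free [Nontrivial k] : ¬ IsVFree (idents k) (retr k) := by
  rintro ⟨Y, ι, h⟩
  have hsub := subsingleton_basis k h
  obtain ⟨m, hm⟩ := Ideal.exists_maximal k
  let K : Type u := k ⧸ m
  let _ : Field K := Ideal.Quotient.field m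
  -- the test homomorphism
  let ψ : F2 k →ₙₐ[k] TA K :=
    hom2 k (TA K) (ta_inVariety k K) (TA.mk 1 1 (1 - X)) (TA.mk 0 X X)
  have hψy : ψ (y k) = TA.mk 1 1 (1 - X) := hom2_y _ _ _ _ _
  have hψz : ψ (z k) = TA.mk 0 X X := hom2_z _ _ _ _ _
  have hψ : ∀ a, ψ (piF k a) = ψ a := by
    have : ψ.comp (piF k) = ψ := by
      apply hom_ext2 k (ta_inVariety k K)
      · rw [NonUnitalAlgHom.comp_apply, piF_y, map_wordY, hψy, hψz]
        apply TA.ext
        · simp [wordY]
        · simp [wordY]
        · simp [wordY]; ring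
      · rw [NonUnitalAlgHom.comp_apply, piF_z, map_wordZ, hψy, hψz]
        apply TA.ext
        · simp [wordZ]
        · simp [wordZ]
        · simp [wordZ]; ring
    exact fun a => DFunLike.congr_fun this a
  obtain ⟨b, hb⟩ : ∃ b : TA K, ∀ j : Y, ψ (ι j : F2 k) ∈ W k K b := by
    rcases isEmpty_or_nonempty Y with hY | ⟨⟨j⟩⟩
    · exact ⟨0, fun j => (hY.false j).elim⟩
    · refine ⟨ψ (ι j : F2 k), fun j' => ?_⟩
      rw [Subsingleton.elim j' j]
      exact ⟨1, 1, by simp, by simp, by simp, by simp, by simp⟩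
  obtain ⟨φ, hφ, -⟩ := h.2 (W k K b) (subalgebra_inVariety k (ta_inVariety k K) _)
    (fun j => ⟨ψ (ι j : F2 k), hb j⟩)
  obtain ⟨χ, -, hχ⟩ := h.2 (TA K) (ta_inVariety k K) (fun j => ψ (ι j : F2 k))
  have e : ψ.comp (incl k (retr k)) = (incl k (W k K b)).comp φ := by
    rw [hχ (ψ.comp (incl k (retr k))) (fun j => rfl), hχ ((incl k (W k K b)).comp φ) ?_]
    intro j
    rw [NonUnitalAlgHom.comp_apply, hφ]
    rfl
  have hmem : ∀ a : F2 k, ψ a ∈ W k K b := by
    intro a
    rw [← hψ a]
    have := DFunLike.congr_fun e (piB k a)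
    have h2 : ψ (piF k a) = (φ (piB k a) : TA K) := this
    rw [h2]
    exact (φ (piB k a)).2
  refine W_contra k b ?_ ?_
  · rw [← hψy]; exact hmem _
  · rw [← hψz]; exact hmem _

end Main

/-- Let `k` be a nontrivial commutative ring (for example a principal ideal domain). There is a
finite set `S` of multilinear identities such that it is not true that, for each algebra `F` which
is free on two generators in the variety defined by `S`, all retracts `B` of `F` are free in the
variety (on some set). In fact `S` can be `{(ab)(cd), a((bc)d), (a(bc))d}`. -/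
theorem result (k : Type u) [CommRing k] [Nontrivial k] :
    ∃ S : Set (FreeNonUnitalNonAssocAlgebra k ℕ), S.Finite ∧ (∀ f ∈ S, IsMultilinear f) ∧
      ¬ ∀ (F : Type u) [NonUnitalNonAssocRing F] [Module k F] [IsScalarTower k F F]
          [SMulCommClass k F F] (ι : ULift.{u} (Fin 2) → F), IsFreeOn S ι →
          ∀ B : NonUnitalSubalgebra k F, IsRetract B → IsVFree S B := by
  refine ⟨idents k, by simp [idents], idents_multilinear k, ?_⟩
  intro h
  exact retr_not_free k (h (F2 k) (gen (idents k) _) (relFree_isFreeOn _ _) (retr k)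
    (retr_isRetract k))

end

end Pool.Agent.Results.MP_ce47b3_al.RetractNotFree
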